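import Pool.Agent.helper84.QI.Spec

set_option autoImplicit false

namespace Pool.Agent.QI

/-- an element whose centralizer has infinite index has infinitely many conjugates -/
theorem ULT_inf {G : Type} [Group G] (y : G) (h : ¬ (Subgroup.centralizer ({y} : Set G)).FiniteIndex) :
    {x : G | ∃ g : G, x = g⁻¹ * y * g}.Infinite := by
  intro hfin
  apply h
  haveI : Finite {x : G | ∃ g : G, x = g⁻¹ * y * g} := hfin
  let f : G ⧸ (Subgroup.centralizer ({y} : Set G)) → {x : G | ∃ g : G, x = g⁻¹ * y * g} :=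
    fun q => ⟨q.out * y * q.out⁻¹, q.out⁻¹, by rw [inv_inv]⟩
  have hf : Function.Injective f := by
    intro p q hpq
    have h1 : p.out * y * p.out⁻¹ = q.out * y * q.out⁻¹ := congrArg Subtype.val hpq
    have h2 : p.out⁻¹ * q.out ∈ Subgroup.centralizer ({y} : Set G) := by
      rw [Subgroup.mem_centralizer_singleton_iff]
      have h3 : y = p.out⁻¹ * (q.out * y * q.out⁻¹) * p.out := by
        rw [← h1]; group
      calc p.out⁻¹ * q.out * y = p.out⁻¹ * (q.out * y * q.out⁻¹) * p.out * (p.out⁻¹ * q.out) := by group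
        _ = y * (p.out⁻¹ * q.out) := by rw [← h3]
    have h4 := QuotientGroup.eq.2 h2
    rw [QuotientGroup.out_eq', QuotientGroup.out_eq'] at h4
    exact h4
  haveI : Finite (G ⧸ (Subgroup.centralizer ({y} : Set G))) := Finite.of_injective f hf
  exact Subgroup.finiteIndex_of_finite_quotient

theorem ULT_ord {G : Type} [Group G] (y g : G) (h : Ord4 y) : Ord4 (g⁻¹ * y * g) := by
  have e : orderOf (g⁻¹ * y * g) = orderOf y := by
    have h1 := orderOf_injective (MulAut.conj g⁻¹).toMonoidHom (MulAut.conj g⁻¹).injective y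
    have h2 : (MulAut.conj g⁻¹).toMonoidHom y = g⁻¹ * y * g := by
      show MulAut.conj g⁻¹ y = g⁻¹ * y * g
      rw [MulAut.conj_apply, inv_inv]
    rw [h2] at h1
    exact h1
  unfold Ord4 at *
  rw [e]
  exact h

theorem ULT_cyc {G : Type} [Group G] (u g : G) (h : Cyc u) : Cyc (g⁻¹ * u * g) := by
  intro k K hK hp
  refine h (g * k) K ?_ hp
  have e : (g * k)⁻¹ * u * (g * k) = k⁻¹ * (g⁻¹ * u * g) * k := by group
  rw [e]
  exact hK

theorem ULT_cen {G : Type} [Group G] (u g : G) (h : (Subgroup.centralizer ({u} : Set G) : Set G).Finite) :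
    (Subgroup.centralizer ({g⁻¹ * u * g} : Set G) : Set G).Finite := by
  refine (h.image (fun c => g⁻¹ * c * g)).subset ?_
  intro c hc
  refine ⟨g * c * g⁻¹, ?_, by group⟩
  rw [SetLike.mem_coe, Subgroup.mem_centralizer_singleton_iff] at hc ⊢
  calc g * c * g⁻¹ * u = g * (c * (g⁻¹ * u * g)) * g⁻¹ := by group
    _ = g * ((g⁻¹ * u * g) * c) * g⁻¹ := by rw [hc]
    _ = u * (g * c * g⁻¹) := by group

theorem ULT (hCNJ : CNJ_stmt) (hFGL : FGL_stmt) : ULT_stmt := by
  classical
  intro G _ a b hCE u hu huu hu1 hcyc hcen y hy hyi hord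
  have hXi : {x : G | ∃ g : G, x = g⁻¹ * y * g}.Infinite := ULT_inf y hyi
  haveI : (Filter.cofinite ⊓ Filter.principal {x : G | ∃ g : G, x = g⁻¹ * y * g}).NeBot :=
    Filter.cofinite_inf_principal_neBot_iff.2 hXi
  obtain ⟨ω, hω⟩ : ∃ ω : Ultrafilter G, (ω : Filter G) ≤ Filter.cofinite ⊓ Filter.principal {x : G | ∃ g : G, x = g⁻¹ * y * g} :=
    ⟨Ultrafilter.of _, Ultrafilter.of_le _⟩
  have hcof : ∀ s : Set G, s.Finite → sᶜ ∈ (ω : Filter G) :=
    fun s hs => hω (Filter.mem_inf_of_left hs.compl_mem_cofinite)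
  have hXω : {x : G | ∃ g : G, x = g⁻¹ * y * g} ∈ (ω : Filter G) :=
    hω (Filter.mem_inf_of_right (Filter.mem_principal_self _))
  have key : ∀ i : G, (∃ g : G, i = g⁻¹ * u * g) →
      ∃ d : G, d * i = i * d ∧ i ∈ Subgroup.zpowers d ∧ ∀ᶠ x in (ω : Filter G), (d⁻¹ * x) * (d⁻¹ * x) = 1 := by
    intro i hi
    obtain ⟨g, hg⟩ := hi
    have hB := hCNJ G a b hCE u hu y hy g
    rw [← hg] at hB
    have hBx := hcof _ (hB.image (fun k => k⁻¹ * y * k))
    have hi1 : i * i = 1 := by
      rw [hg]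
      calc g⁻¹ * u * g * (g⁻¹ * u * g) = g⁻¹ * (u * u) * g := by group
        _ = 1 := by rw [huu]; group
    have hi2 : i ≠ 1 := by
      intro h1
      apply hu1
      rw [hg] at h1
      calc u = g * (g⁻¹ * u * g) * g⁻¹ := by group
        _ = 1 := by rw [h1]; group
    have hi3 : Cyc i := by rw [hg]; exact ULT_cyc u g hcyc
    have hi4 : (Subgroup.centralizer ({i} : Set G) : Set G).Finite := by rw [hg]; exact ULT_cen u g hcen
    have hev : ∀ᶠ x in (ω : Filter G), ∃ d ∈ (Subgroup.centralizer ({i} : Set G) : Set G),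
        i ∈ Subgroup.zpowers d ∧ (d⁻¹ * x) * (d⁻¹ * x) = 1 := by
      filter_upwards [hBx, hXω] with x hx1 hx2
      obtain ⟨k, hk⟩ := hx2
      have hfin : (Subgroup.closure ({i, x} : Set G) : Set G).Finite := by
        by_contra hc
        rw [hk] at hc
        exact hx1 ⟨k, hc, hk.symm⟩
      have hox : Ord4 x := by rw [hk]; exact ULT_ord y k hord
      obtain ⟨d, h1, h2, h3⟩ := hFGL G i x hi1 hi2 hi3 hfin hox
      refine ⟨d, ?_, h3, h2⟩
      rw [SetLike.mem_coe, Subgroup.mem_centralizer_singleton_iff]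
      exact h1
    obtain ⟨d, hd1, hd2⟩ := (Ultrafilter.eventually_exists_mem_iff hi4).1 hev
    rw [SetLike.mem_coe, Subgroup.mem_centralizer_singleton_iff] at hd1
    obtain ⟨x, hx⟩ := hd2.exists
    exact ⟨d, hd1, hx.1, hd2.mono fun z hz => hz.2⟩
  refine ⟨ω, fun i => if h : ∃ g : G, i = g⁻¹ * u * g then Classical.choose (key i h) else 1, ?_, ?_⟩
  · intro s hs hsω
    have h1 : s ∩ sᶜ ∈ (ω : Filter G) := Filter.inter_mem hsω (hcof s hs)
    rw [Set.inter_compl_self] at h1
    exact Filter.empty_notMem (ω : Filter G) h1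
  · intro g i hi
    have h : ∃ g : G, i = g⁻¹ * u * g := ⟨g, hi⟩
    simp only [dif_pos h]
    exact Classical.choose_spec (key i h)

end Pool.Agent.QI
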